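import Pool.Agent.Lib_helper57.MinHomeo.Defs

open Set Metric Topology

set_option linter.unusedSectionVars false

namespace Pool.Agent.MinHomeo

section AQaux

variable {X : Type} [NormedAddCommGroup X] [NormedSpace ℝ X]

/-- The cutoff function: `1` for `‖x‖ ≤ r₀`, `0` for `‖x‖ ≥ r₀ + 2ρ`. -/
noncomputable def aqCut (ρ r₀ : ℝ) (x : X) : ℝ := max 0 (min 1 (1 - (‖x‖ - r₀) / (2 * ρ)))

theorem aqCut_cont (ρ r₀ : ℝ) : Continuous (aqCut ρ r₀ : X → ℝ) := by
  unfold aqCut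
  fun_prop

theorem aqCut_one {ρ r₀ : ℝ} (hρ : 0 < ρ) {x : X} (hx : ‖x‖ ≤ r₀) : aqCut ρ r₀ x = 1 := by
  unfold aqCut
  have : (‖x‖ - r₀) / (2 * ρ) ≤ 0 := div_nonpos_of_nonpos_of_nonneg (by linarith) (by linarith)
  rw [min_eq_left (by linarith), max_eq_right (by norm_num)]

theorem aqCut_zero {ρ r₀ : ℝ} (hρ : 0 < ρ) {x : X} (hx : r₀ + 2 * ρ ≤ ‖x‖) :
    aqCut ρ r₀ x = 0 := by
  unfold aqCut
  have : 1 ≤ (‖x‖ - r₀) / (2 * ρ) := by
    rw [le_div_iff₀ (by linarith)]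
    linarith
  have h2 : min 1 (1 - (‖x‖ - r₀) / (2 * ρ)) ≤ 0 := (min_le_right _ _).trans (by linarith)
  exact max_eq_left h2

theorem aqCut_lip {ρ : ℝ} (r₀ : ℝ) (hρ : 0 < ρ) (x y : X) :
    |aqCut ρ r₀ x - aqCut ρ r₀ y| ≤ ‖x - y‖ / (2 * ρ) := by
  unfold aqCut
  have h1 : ∀ a b : ℝ, |max 0 a - max 0 b| ≤ |a - b| := by
    intro a b
    have := abs_max_sub_max_le_max 0 a 0 b
    simpa using this
  have h2 : ∀ a b : ℝ, |min 1 a - min 1 b| ≤ |a - b| := by
    intro a b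
    have := abs_min_sub_min_le_max 1 a 1 b
    simpa using this
  refine (h1 _ _).trans ((h2 _ _).trans ?_)
  have e : (1 - (‖x‖ - r₀) / (2 * ρ)) - (1 - (‖y‖ - r₀) / (2 * ρ)) = -((‖x‖ - ‖y‖) / (2 * ρ)) := by
    ring
  rw [e, abs_neg, abs_div, abs_of_pos (by linarith : 0 < 2 * ρ)]
  gcongr
  exact abs_norm_sub_norm_le x y

/-- For a fixed small vector, `x ↦ x + χ(x) w` is a bijection. -/
theorem aq_bij [CompleteSpace X] {ρ : ℝ} (r₀ : ℝ) (hρ : 0 < ρ) {w : X} (hw : ‖w‖ ≤ ρ) (y : X) :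
    ∃! x : X, x + aqCut ρ r₀ x • w = y := by
  let g : X → X := fun x => y - aqCut ρ r₀ x • w
  have hg : ContractingWith (1 / 2) g := by
    refine ⟨by
      rw [← NNReal.coe_lt_coe]
      push_cast
      norm_num, ?_⟩
    refine LipschitzWith.of_dist_le_mul ?_
    intro a b
    rw [dist_eq_norm, dist_eq_norm]
    have e : g a - g b = (aqCut ρ r₀ b - aqCut ρ r₀ a) • w := by
      simp only [g]
      rw [sub_smul]
      abel
    rw [e, norm_smul, Real.norm_eq_abs]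
    have h1 := aqCut_lip r₀ hρ b a
    rw [norm_sub_rev] at h1
    have h2 : |aqCut ρ r₀ b - aqCut ρ r₀ a| * ‖w‖ ≤ ‖a - b‖ / (2 * ρ) * ρ :=
      mul_le_mul h1 hw (norm_nonneg _) (div_nonneg (norm_nonneg _) (by linarith))
    refine h2.trans (le_of_eq ?_)
    push_cast
    field_simp
  have hfix : ∀ x, x + aqCut ρ r₀ x • w = y ↔ Function.IsFixedPt g x := by
    intro x
    simp only [Function.IsFixedPt, g]
    constructor
    · intro h
      rw [← h]
      abel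
    · intro h
      nth_rewrite 1 [← h]
      abel
  have : Nonempty X := ⟨0⟩
  refine ⟨hg.fixedPoint g, (hfix _).2 hg.fixedPoint_isFixedPt, ?_⟩
  intro x hx
  exact hg.fixedPoint_unique ((hfix x).1 hx)

end AQaux

section AQmain

variable {X : Type} [NormedAddCommGroup X] [NormedSpace ℝ X] {M : Type} [MetricSpace M]

theorem aq_R_zero (C : RotChart X M) (x : M) : C.R 0 x = x := by
  have := C.R_add 0 1 x
  rw [zero_add, C.R_one] at this
  exact this.symm

theorem aq_R_neg (C : RotChart X M) (t : ℝ) (x : M) : C.R (-t) (C.R t x) = x := by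
  rw [← C.R_add, neg_add_cancel, aq_R_zero]

/-- AQ: the conjugating homeomorphisms of the classical step. -/
theorem aq [FiniteDimensional ℝ X] [CompactSpace M] (C : RotChart X M) (h : Transport_Stmt C) :
    AQ_Stmt C := by
  intro v ρ r₀ hρ hr₀ hv hv1 hv0 hvρ q hq
  have hper : ∀ (k : ℤ) (s : ℝ), v (s + k) = v s := by
    have hp : Function.Periodic v 1 := hv1
    intro k s
    have := hp.int_mul k s
    simpa using this
  have : CompleteSpace X := FiniteDimensional.complete ℝ X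
  let T : X × ℝ → X × ℝ := fun y => (y.1 + aqCut ρ r₀ y.1 • v (q * y.2), y.2)
  have hTc : Continuous T := by
    have := aqCut_cont (X := X) ρ r₀
    fun_prop
  have hTb : Function.Bijective T := by
    constructor
    · rintro ⟨x, θ⟩ ⟨x', θ'⟩ hxx
      have h2 : θ = θ' := congrArg Prod.snd hxx
      subst h2
      have h1 : x + aqCut ρ r₀ x • v (q * θ) = x' + aqCut ρ r₀ x' • v (q * θ) :=
        congrArg Prod.fst hxx
      obtain ⟨z, -, hz⟩ := aq_bij r₀ hρ (hvρ (q * θ)) (x' + aqCut ρ r₀ x' • v (q * θ))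
      rw [hz x h1, hz x' rfl]
    · rintro ⟨y, θ⟩
      obtain ⟨x, hx, -⟩ := aq_bij r₀ hρ (hvρ (q * θ)) y
      exact ⟨(x, θ), Prod.ext hx rfl⟩
  have hT1 : ∀ x θ, T (x, θ + 1) = T (x, θ) + (0, 1) := by
    intro x θ
    have e : (q : ℝ) * (θ + 1) = q * θ + ((q : ℤ) : ℝ) := by
      push_cast
      ring
    simp only [T, e, hper, Prod.mk_add_mk, add_zero]
  obtain ⟨A, hA, hA'⟩ := h T hTc hTb hT1 ⟨r₀ + 2 * ρ, by
    rintro ⟨x, θ⟩ hx
    simp only [T, aqCut_zero hρ hx, zero_smul, add_zero]⟩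
  refine ⟨A, ?_, ?_, hA', ?_⟩
  · intro x θ hx
    rw [hA]
    simp only [T, aqCut_one hρ hx, one_smul]
  · rintro x θ ⟨k, hk⟩
    rw [hA]
    have : v k = 0 := by
      have := hper k 0
      rw [zero_add] at this
      rw [this, hv0]
    simp only [T, hk, this, smul_zero, add_zero]
  · rintro t ⟨k, hk⟩ m
    by_cases hm : m ∈ range C.Φ
    · obtain ⟨⟨x, θ⟩, rfl⟩ := hm
      rw [C.R_Φ, hA, hA]
      have e : (q : ℝ) * (θ + t) = q * θ + k := by rw [mul_add, hk]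
      simp only [T, e, hper, C.R_Φ]
    · have hm' : C.R t m ∉ range C.Φ := by
        rintro ⟨⟨x, θ⟩, hx⟩
        apply hm
        refine ⟨(x, θ + -t), ?_⟩
        rw [← C.R_Φ, hx, aq_R_neg]
      rw [hA' _ hm, hA' _ hm']

end AQmain

end Pool.Agent.MinHomeo
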