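import Pool.Agent.Lib_helper57.MinHomeo.Defs

/-!
# SPHCHART: the Hopf rotations of the sphere and their chart
-/

open Set Metric Topology

set_option linter.unusedSectionVars false

namespace Pool.Agent.MinHomeo

namespace SphChart

variable {F : Type} [NormedAddCommGroup F] [InnerProductSpace ℂ F]

/-- The unit complex number of angle `2 π t`. -/
noncomputable def e (t : ℝ) : ℂ := Complex.exp ((2 * Real.pi * t : ℝ) * Complex.I)

lemma norm_e (t : ℝ) : ‖e t‖ = 1 := Complex.norm_exp_ofReal_mul_I _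

lemma e_ne (t : ℝ) : e t ≠ 0 := Complex.exp_ne_zero _

lemma e_add (s t : ℝ) : e (s + t) = e s * e t := by
  unfold e
  rw [← Complex.exp_add]
  congr 1
  push_cast
  ring

lemma e_zero : e 0 = 1 := by
  unfold e
  simp

lemma e_neg_mul (t : ℝ) : e (-t) * e t = 1 := by
  rw [← e_add, neg_add_cancel, e_zero]

lemma e_mul_neg (t : ℝ) : e t * e (-t) = 1 := by
  rw [← e_add, add_neg_cancel, e_zero]

lemma e_eq_one_iff (t : ℝ) : e t = 1 ↔ ∃ k : ℤ, t = k := by
  unfold e
  rw [Complex.exp_eq_one_iff]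
  have hpi : (2 * (Real.pi : ℂ) * Complex.I) ≠ 0 := by
    simp
  constructor
  · rintro ⟨k, hk⟩
    refine ⟨k, ?_⟩
    have h1 : (t : ℂ) * (2 * (Real.pi : ℂ) * Complex.I) = k * (2 * (Real.pi : ℂ) * Complex.I) := by
      rw [← hk]
      push_cast
      ring
    have h2 := mul_right_cancel₀ hpi h1
    exact_mod_cast h2
  · rintro ⟨k, rfl⟩
    refine ⟨k, ?_⟩
    push_cast
    ring

lemma e_one : e 1 = 1 := (e_eq_one_iff 1).2 ⟨1, by simp⟩

lemma e_cont : Continuous e := by
  unfold e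
  fun_prop

lemma e_eq_iff (s t : ℝ) : e s = e t ↔ ∃ k : ℤ, t = s + k := by
  constructor
  · intro h
    have : e (t - s) = 1 := by
      rw [sub_eq_add_neg, e_add, ← h, e_mul_neg]
    obtain ⟨k, hk⟩ := (e_eq_one_iff _).1 this
    exact ⟨k, by linarith⟩
  · rintro ⟨k, rfl⟩
    have : e (k : ℝ) = 1 := (e_eq_one_iff _).2 ⟨k, rfl⟩
    rw [e_add, this, mul_one]

/-- rotation of the sphere -/
noncomputable def rot (t : ℝ) (p : Sph F) : Sph F :=
  ⟨e t • (p : Amb F), by
    rw [mem_sphere_zero_iff_norm, norm_smul, norm_e, one_mul]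
    exact mem_sphere_zero_iff_norm.1 p.2⟩

lemma rot_val (t : ℝ) (p : Sph F) : (rot t p : Amb F) = e t • (p : Amb F) := rfl

lemma rot_cont2 : Continuous fun x : ℝ × Sph F => rot x.1 x.2 := by
  refine Continuous.subtype_mk ?_ _
  exact (e_cont.comp continuous_fst).smul (continuous_subtype_val.comp continuous_snd)

lemma rot_add (s t : ℝ) (p : Sph F) : rot (s + t) p = rot s (rot t p) := by
  apply Subtype.ext
  rw [rot_val, rot_val, rot_val, e_add, mul_smul]

lemma rot_zero (p : Sph F) : rot 0 p = p := by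
  apply Subtype.ext
  rw [rot_val, e_zero, one_smul]

/-- rotation as a homeomorphism -/
noncomputable def rotH (t : ℝ) : Sph F ≃ₜ Sph F where
  toFun := rot t
  invFun := rot (-t)
  left_inv p := by
    rw [← rot_add, neg_add_cancel, rot_zero]
  right_inv p := by
    rw [← rot_add, add_neg_cancel, rot_zero]
  continuous_toFun := by
    have := rot_cont2 (F := F)
    exact this.comp (Continuous.prodMk continuous_const continuous_id)
  continuous_invFun := by
    have := rot_cont2 (F := F)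
    exact this.comp (Continuous.prodMk continuous_const continuous_id)

lemma rotH_apply (t : ℝ) (p : Sph F) : rotH t p = rot t p := rfl

/-- the normalising factor -/
noncomputable def nf (w : F) : ℝ := (Real.sqrt (1 + ‖w‖ ^ 2))⁻¹

lemma nf_pos (w : F) : 0 < nf w := by
  unfold nf
  positivity

lemma nf_cont : Continuous (nf : F → ℝ) := by
  unfold nf
  refine Continuous.inv₀ (by fun_prop) ?_
  intro w
  positivity

lemma nf_sq (w : F) : nf w ^ 2 * (1 + ‖w‖ ^ 2) = 1 := by
  unfold nf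
  rw [inv_pow, Real.sq_sqrt (by positivity)]
  exact inv_mul_cancel₀ (by positivity)

/-- the chart before restriction to the sphere -/
noncomputable def pre (w : F) (θ : ℝ) : Amb F :=
  (e θ * (nf w : ℂ)) • (WithLp.toLp 2 ((1 : ℂ), w))

lemma pre_fst (w : F) (θ : ℝ) : (pre w θ).fst = e θ * (nf w : ℂ) := by
  unfold pre
  rw [WithLp.smul_fst]
  simp

lemma pre_snd (w : F) (θ : ℝ) : (pre w θ).snd = (e θ * (nf w : ℂ)) • w := by
  unfold pre
  rw [WithLp.smul_snd]
  rfl

lemma pre_norm (w : F) (θ : ℝ) : ‖pre w θ‖ = 1 := by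
  have h1 : ‖pre w θ‖ ^ 2 = ‖(pre w θ).fst‖ ^ 2 + ‖(pre w θ).snd‖ ^ 2 :=
    WithLp.prod_norm_sq_eq_of_L2 _
  rw [pre_fst, pre_snd, norm_smul, norm_mul, norm_e, one_mul, Complex.norm_real,
    Real.norm_of_nonneg (nf_pos w).le] at h1
  have h2 := nf_sq w
  have h3 : ‖pre w θ‖ ^ 2 = 1 := by
    rw [h1, mul_pow]
    linarith
  have h4 := norm_nonneg (pre w θ)
  nlinarith

/-- the chart -/
noncomputable def chart (y : F × ℝ) : Sph F :=
  ⟨pre y.1 y.2, mem_sphere_zero_iff_norm.2 (pre_norm _ _)⟩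

lemma chart_val (w : F) (θ : ℝ) : (chart (w, θ) : Amb F) = pre w θ := rfl

lemma chart_cont : Continuous (chart : F × ℝ → Sph F) := by
  have h1 : Continuous fun y : F × ℝ => e y.2 * (nf y.1 : ℂ) :=
    (e_cont.comp continuous_snd).mul
      (Complex.continuous_ofReal.comp (nf_cont.comp continuous_fst))
  have h2 : Continuous fun y : F × ℝ => (WithLp.toLp 2 ((1 : ℂ), y.1) : Amb F) := by
    refine (WithLp.prod_continuous_toLp 2 ℂ F).comp ?_
    fun_prop
  have h : Continuous fun y : F × ℝ =>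
      (e y.2 * (nf y.1 : ℂ)) • (WithLp.toLp 2 ((1 : ℂ), y.1) : Amb F) := h1.smul h2
  exact Continuous.subtype_mk h _

lemma ext_amb {p q : Amb F} (h1 : p.fst = q.fst) (h2 : p.snd = q.snd) : p = q := by
  have : WithLp.ofLp p = WithLp.ofLp q := Prod.ext h1 h2
  exact (WithLp.ofLp_injective 2) this

/-- local inverse of the chart near the angle `θ₀` -/
noncomputable def sec (θ₀ : ℝ) (p : Sph F) : F × ℝ :=
  ((p : Amb F).fst⁻¹ • (p : Amb F).snd,
    θ₀ + Complex.arg ((p : Amb F).fst * e (-θ₀)) / (2 * Real.pi))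

lemma sph_norm (p : Sph F) : ‖(p : Amb F).fst‖ ^ 2 + ‖(p : Amb F).snd‖ ^ 2 = 1 := by
  have h1 : ‖(p : Amb F)‖ ^ 2 = ‖(p : Amb F).fst‖ ^ 2 + ‖(p : Amb F).snd‖ ^ 2 :=
    WithLp.prod_norm_sq_eq_of_L2 _
  have h2 : ‖(p : Amb F)‖ = 1 := mem_sphere_zero_iff_norm.1 p.2
  rw [← h1, h2]
  norm_num

lemma nf_sec (p : Sph F) (hp : (p : Amb F).fst ≠ 0) :
    nf ((p : Amb F).fst⁻¹ • (p : Amb F).snd) = ‖(p : Amb F).fst‖ := by
  have h0 : 0 < ‖(p : Amb F).fst‖ := norm_pos_iff.2 hp
  have h1 := sph_norm p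
  have h2 := nf_sq ((p : Amb F).fst⁻¹ • (p : Amb F).snd)
  rw [norm_smul, norm_inv, mul_pow] at h2
  have h3 : (1 + (‖(p : Amb F).fst‖⁻¹) ^ 2 * ‖(p : Amb F).snd‖ ^ 2) =
      (‖(p : Amb F).fst‖⁻¹) ^ 2 := by
    have h4 : ‖(p : Amb F).snd‖ ^ 2 = 1 - ‖(p : Amb F).fst‖ ^ 2 := by linarith
    rw [h4]
    field_simp
    ring
  rw [h3] at h2
  have h5 := nf_pos ((p : Amb F).fst⁻¹ • (p : Amb F).snd)
  have h6 : (nf ((p : Amb F).fst⁻¹ • (p : Amb F).snd)) ^ 2 = ‖(p : Amb F).fst‖ ^ 2 := by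
    rw [inv_pow] at h2
    exact (mul_inv_eq_one₀ (by positivity)).1 h2
  nlinarith

lemma e_arg (z : ℂ) :
    e (Complex.arg z / (2 * Real.pi)) * (‖z‖ : ℂ) = z := by
  unfold e
  have h : 2 * Real.pi * (Complex.arg z / (2 * Real.pi)) = Complex.arg z := by
    have := Real.pi_ne_zero
    field_simp
  rw [h, mul_comm]
  exact Complex.norm_mul_exp_arg_mul_I z

lemma chart_sec (θ₀ : ℝ) (p : Sph F) (hp : (p : Amb F).fst ≠ 0) : chart (sec θ₀ p) = p := by
  apply Subtype.ext
  have h1 : (chart (sec θ₀ p) : Amb F).fst = (p : Amb F).fst := by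
    show (pre _ _).fst = _
    rw [pre_fst]
    show e (θ₀ + _) * ((nf ((p : Amb F).fst⁻¹ • (p : Amb F).snd) : ℝ) : ℂ) = _
    rw [nf_sec p hp, e_add]
    have h3 := e_arg ((p : Amb F).fst * e (-θ₀))
    have h4 : ‖(p : Amb F).fst * e (-θ₀)‖ = ‖(p : Amb F).fst‖ := by
      rw [norm_mul, norm_e, mul_one]
    rw [h4] at h3
    rw [mul_assoc, h3, mul_left_comm, e_mul_neg, mul_one]
  refine ext_amb h1 ?_
  have h5 : (chart (sec θ₀ p) : Amb F).snd = (chart (sec θ₀ p) : Amb F).fst • (sec θ₀ p).1 := by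
    show (pre _ _).snd = (pre _ _).fst • _
    rw [pre_snd, pre_fst]
  rw [h5, h1]
  show (p : Amb F).fst • ((p : Amb F).fst⁻¹ • (p : Amb F).snd) = _
  rw [smul_smul, mul_inv_cancel₀ hp, one_smul]

lemma chart_fst_ne (y : F × ℝ) : (chart y : Amb F).fst ≠ 0 := by
  show (pre _ _).fst ≠ 0
  rw [pre_fst]
  exact mul_ne_zero (e_ne _) (by exact_mod_cast (nf_pos _).ne')

lemma range_chart : range (chart : F × ℝ → Sph F) = {p : Sph F | (p : Amb F).fst ≠ 0} := by
  ext p
  constructor
  · rintro ⟨y, rfl⟩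
    exact chart_fst_ne y
  · intro hp
    exact ⟨sec 0 p, chart_sec 0 p hp⟩

lemma sec_chart (w : F) (θ : ℝ) : sec θ (chart (w, θ)) = (w, θ) := by
  have h0 : (chart (w, θ) : Amb F).fst = e θ * (nf w : ℂ) := pre_fst w θ
  have h1 : (chart (w, θ) : Amb F).snd = (e θ * (nf w : ℂ)) • w := pre_snd w θ
  have h2 : (e θ * (nf w : ℂ)) ≠ 0 := by
    rw [← h0]
    exact chart_fst_ne _
  unfold sec
  rw [h0, h1, smul_smul, inv_mul_cancel₀ h2, one_smul]
  have h3 : e θ * (nf w : ℂ) * e (-θ) = (nf w : ℂ) := by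
    rw [mul_right_comm, e_mul_neg, one_mul]
  rw [h3, Complex.arg_ofReal_of_nonneg (nf_pos w).le]
  simp

lemma fst_cont : Continuous fun p : Sph F => (p : Amb F).fst :=
  (WithLp.continuous_fst 2 ℂ F).comp continuous_subtype_val

lemma snd_cont : Continuous fun p : Sph F => (p : Amb F).snd :=
  (WithLp.continuous_snd 2 ℂ F).comp continuous_subtype_val

lemma sec_cont (w : F) (θ : ℝ) : ContinuousAt (sec θ) (chart (w, θ)) := by
  have h0 : (chart (w, θ) : Amb F).fst = e θ * (nf w : ℂ) := pre_fst w θ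
  have h3 : e θ * (nf w : ℂ) * e (-θ) = (nf w : ℂ) := by
    rw [mul_right_comm, e_mul_neg, one_mul]
  unfold sec
  refine ContinuousAt.prodMk ?_ ?_
  · refine ContinuousAt.smul ?_ snd_cont.continuousAt
    exact fst_cont.continuousAt.inv₀ (chart_fst_ne _)
  · refine continuousAt_const.add (ContinuousAt.div_const ?_ _)
    have hc : ContinuousAt (fun p : Sph F => (p : Amb F).fst * e (-θ)) (chart (w, θ)) :=
      (fst_cont.mul continuous_const).continuousAt
    refine ContinuousAt.comp (g := Complex.arg) ?_ hc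
    apply Complex.continuousAt_arg
    rw [h0, h3]
    left
    rw [Complex.ofReal_re]
    exact nf_pos w

lemma chart_open : IsOpenMap (chart : F × ℝ → Sph F) := by
  rw [isOpenMap_iff_nhds_le]
  rintro ⟨w, θ⟩ N hN
  rw [Filter.mem_map] at hN
  have h1 : sec θ ⁻¹' (chart ⁻¹' N) ∈ 𝓝 (chart (w, θ) : Sph F) := by
    apply sec_cont w θ
    rw [sec_chart]
    exact hN
  have h2 : {p : Sph F | (p : Amb F).fst ≠ 0} ∈ 𝓝 (chart (w, θ) : Sph F) :=
    (isOpen_ne_fun fst_cont continuous_const).mem_nhds (chart_fst_ne _)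
  filter_upwards [h1, h2] with p hp1 hp2
  rw [mem_preimage, mem_preimage, chart_sec θ p hp2] at hp1
  exact hp1

lemma chart_eq (x : F) (θ : ℝ) (x' : F) (θ' : ℝ) :
    chart (x, θ) = chart (x', θ') ↔ x = x' ∧ ∃ k : ℤ, θ' = θ + k := by
  constructor
  · intro h
    have h1 : (chart (x, θ) : Amb F).fst = (chart (x', θ') : Amb F).fst := by rw [h]
    have h2 : (chart (x, θ) : Amb F).snd = (chart (x', θ') : Amb F).snd := by rw [h]
    rw [chart_val, chart_val, pre_fst, pre_fst] at h1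
    rw [chart_val, chart_val, pre_snd, pre_snd, h1] at h2
    have h3 : (e θ' * (nf x' : ℂ)) ≠ 0 := mul_ne_zero (e_ne _) (by exact_mod_cast (nf_pos _).ne')
    have hx : x = x' := smul_right_injective F h3 h2
    subst hx
    refine ⟨rfl, ?_⟩
    have h4 : (nf x : ℂ) ≠ 0 := by exact_mod_cast (nf_pos _).ne'
    exact (e_eq_iff _ _).1 (mul_right_cancel₀ h4 h1)
  · rintro ⟨rfl, k, rfl⟩
    apply Subtype.ext
    rw [chart_val, chart_val]
    unfold pre
    rw [(e_eq_iff θ (θ + k)).2 ⟨k, rfl⟩]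

lemma rot_chart (t : ℝ) (x : F) (θ : ℝ) : rot t (chart (x, θ)) = chart (x, θ + t) := by
  apply Subtype.ext
  rw [rot_val, chart_val, chart_val]
  unfold pre
  rw [smul_smul, add_comm θ t, e_add, mul_assoc]

/-- the path from a point with vanishing first coordinate into the range of the chart -/
lemma range_dense : Dense (range (chart : F × ℝ → Sph F)) := by
  rw [range_chart]
  intro p
  by_cases hp : (p : Amb F).fst = 0
  · -- approximate by `cos s • p + sin s • (1, 0)`
    have hn : ‖(p : Amb F).snd‖ ^ 2 = 1 := by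
      have := sph_norm p
      rw [hp] at this
      simpa using this
    let γ : ℝ → Amb F := fun s => WithLp.toLp 2 ((Real.sin s : ℂ), (Real.cos s : ℂ) • (p : Amb F).snd)
    have hγ : ∀ s, ‖γ s‖ = 1 := by
      intro s
      have h1 : ‖γ s‖ ^ 2 = ‖(γ s).fst‖ ^ 2 + ‖(γ s).snd‖ ^ 2 := WithLp.prod_norm_sq_eq_of_L2 _
      have h2 : (γ s).fst = (Real.sin s : ℂ) := rfl
      have h3 : (γ s).snd = (Real.cos s : ℂ) • (p : Amb F).snd := rfl
      rw [h2, h3, norm_smul, Complex.norm_real, Complex.norm_real, mul_pow, hn, Real.norm_eq_abs,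
        Real.norm_eq_abs, sq_abs, sq_abs, mul_one, Real.sin_sq_add_cos_sq] at h1
      have h4 := norm_nonneg (γ s)
      nlinarith
    let g : ℝ → Sph F := fun s => ⟨γ s, mem_sphere_zero_iff_norm.2 (hγ s)⟩
    have hg : Continuous g := by
      refine Continuous.subtype_mk ?_ _
      refine (WithLp.prod_continuous_toLp 2 ℂ F).comp ?_
      fun_prop
    have hg0 : g 0 = p := by
      apply Subtype.ext
      refine ext_amb ?_ ?_
      · show ((Real.sin 0 : ℝ) : ℂ) = _
        rw [hp]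
        simp
      · show ((Real.cos 0 : ℝ) : ℂ) • (p : Amb F).snd = _
        simp
    have ht : Filter.Tendsto g (𝓝[>] 0) (𝓝 p) := by
      have := hg.tendsto 0
      rw [hg0] at this
      exact this.mono_left nhdsWithin_le_nhds
    refine mem_closure_of_tendsto ht ?_
    have h5 : Ioo (0 : ℝ) Real.pi ∈ 𝓝[>] (0 : ℝ) := Ioo_mem_nhdsGT Real.pi_pos
    filter_upwards [h5] with s hs
    show ((Real.sin s : ℝ) : ℂ) ≠ 0
    exact_mod_cast (Real.sin_pos_of_pos_of_lt_pi hs.1 hs.2).ne'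
  · exact subset_closure hp

end SphChart

open SphChart in
/-- SPHCHART: the Hopf rotations and their chart. -/
theorem sphChart (F : Type) [NormedAddCommGroup F] [InnerProductSpace ℂ F]
    [FiniteDimensional ℂ F] (h1 : SphConn_Stmt F) (h2 : SphTrans_Stmt F) : SphChart_Stmt F := by
  refine ⟨{
    R := rotH
    R_add := rot_add
    R_one := ?_
    R_isom := ?_
    R_cont := rot_cont2
    Φ := chart
    Φ_cont := chart_cont
    Φ_open := chart_open
    Φ_eq := chart_eq
    R_Φ := rot_chart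
    dense := range_dense
    trans := ?_
    conn := ?_ }⟩
  · intro x
    apply Subtype.ext
    show e 1 • (x : Amb F) = _
    rw [e_one, one_smul]
  · intro t x y
    show dist (e t • (x : Amb F)) (e t • (y : Amb F)) = dist (x : Amb F) (y : Amb F)
    rw [dist_eq_norm, dist_eq_norm, ← smul_sub, norm_smul, norm_e, one_mul]
  · intro p
    obtain ⟨u, hu⟩ := h2 (chart (0, 0)) p
    have hmem : ∀ x : Sph F, u (x : Amb F) ∈ sphere (0 : Amb F) 1 := by
      intro x
      rw [mem_sphere_zero_iff_norm, u.norm_map]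
      exact mem_sphere_zero_iff_norm.1 x.2
    have hmem' : ∀ x : Sph F, u.symm (x : Amb F) ∈ sphere (0 : Amb F) 1 := by
      intro x
      rw [mem_sphere_zero_iff_norm, u.symm.norm_map]
      exact mem_sphere_zero_iff_norm.1 x.2
    let U : Sph F ≃ₜ Sph F :=
      { toFun := fun x => ⟨u (x : Amb F), hmem x⟩
        invFun := fun x => ⟨u.symm (x : Amb F), hmem' x⟩
        left_inv := fun x => Subtype.ext (u.symm_apply_apply _)
        right_inv := fun x => Subtype.ext (u.apply_symm_apply _)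
        continuous_toFun := Continuous.subtype_mk (u.continuous.comp continuous_subtype_val) _
        continuous_invFun :=
          Continuous.subtype_mk (u.symm.continuous.comp continuous_subtype_val) _ }
    refine ⟨U, ?_, ?_⟩
    · intro t x
      apply Subtype.ext
      show u (e t • (x : Amb F)) = e t • u (x : Amb F)
      rw [map_smul]
    · exact Subtype.ext hu
  · intro O hO hO'
    rw [range_chart]
    exact h1 O hO hO'

end Pool.Agent.MinHomeo
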