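import Pool.Agent.Lib_helper57.MinHomeo.Defs

open Set Metric Topology

set_option linter.unusedSectionVars false

namespace Pool.Agent.MinHomeo

variable {X : Type} [NormedAddCommGroup X] [NormedSpace ℝ X] {M : Type} [MetricSpace M]

/-- The chart is invariant under integer shifts of the angle. -/
theorem transport_shift (C : RotChart X M) (y : X × ℝ) (k : ℤ) :
    C.Φ (y + (0, (k : ℝ))) = C.Φ y := by
  obtain ⟨x, θ⟩ := y
  have := (C.Φ_eq x θ x (θ + k)).2 ⟨rfl, k, rfl⟩
  rw [this]
  simp

/-- Two points with the same image differ by an integer shift. -/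
theorem transport_eq (C : RotChart X M) {y z : X × ℝ} (h : C.Φ y = C.Φ z) :
    ∃ k : ℤ, z = y + (0, (k : ℝ)) := by
  obtain ⟨x, θ⟩ := y
  obtain ⟨x', θ'⟩ := z
  obtain ⟨h1, k, hk⟩ := (C.Φ_eq x θ x' θ').1 h
  refine ⟨k, ?_⟩
  rw [h1, hk]
  simp

/-- Integer shifts commute with `T`. -/
theorem transport_T {T : X × ℝ → X × ℝ} (hT : ∀ x θ, T (x, θ + 1) = T (x, θ) + (0, 1))
    (y : X × ℝ) (k : ℤ) : T (y + (0, (k : ℝ))) = T y + (0, (k : ℝ)) := by
  have h1 : ∀ y : X × ℝ, T (y + (0, 1)) = T y + (0, 1) := by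
    rintro ⟨x, θ⟩
    have := hT x θ
    simpa using this
  have h2 : ∀ (n : ℕ) (y : X × ℝ), T (y + (0, (n : ℝ))) = T y + (0, (n : ℝ)) := by
    intro n
    induction n with
    | zero =>
      intro y
      have e : ((0 : X), ((0 : ℕ) : ℝ)) = 0 := by
        rw [Nat.cast_zero]
        rfl
      rw [e, add_zero, add_zero]
    | succ n ih =>
      intro y
      have e : ((0 : X), ((n + 1 : ℕ) : ℝ)) = (0, (n : ℝ)) + (0, 1) := by
        simp
      rw [e, ← add_assoc, h1, ih, add_assoc]
  obtain ⟨n, rfl | rfl⟩ := k.eq_nat_or_neg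
  · simpa using h2 n y
  · have := h2 n (y + (0, ((-(n : ℤ) : ℤ) : ℝ)))
    have e : ((0 : X), ((-(n : ℤ) : ℤ) : ℝ)) + (0, (n : ℝ)) = 0 := by
      simp
    rw [add_assoc, e, add_zero] at this
    rw [this, add_assoc, add_comm (0, (n : ℝ)), e, add_zero]

/-- TR: transport of equivariant maps of `X × ℝ` with bounded support. -/
theorem transport [FiniteDimensional ℝ X] [CompactSpace M] (C : RotChart X M) :
    Transport_Stmt C := by
  classical
  intro T hTc hTb hT1 ⟨r, hr⟩
  -- the map on `M`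
  let S : M → M := fun m => if h : m ∈ range C.Φ then C.Φ (T h.choose) else m
  have hS : ∀ y, S (C.Φ y) = C.Φ (T y) := by
    intro y
    have h : C.Φ y ∈ range C.Φ := ⟨y, rfl⟩
    have e : S (C.Φ y) = C.Φ (T h.choose) := dif_pos h
    have key : ∀ z, C.Φ z = C.Φ y → C.Φ (T z) = C.Φ (T y) := by
      intro z hz
      obtain ⟨k, hk⟩ := transport_eq C hz
      rw [hk, transport_T hT1, transport_shift]
    exact e.trans (key _ h.choose_spec)
  have hS' : ∀ m, m ∉ range C.Φ → S m = m := by
    intro m hm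
    exact dif_neg hm
  have hinj : Function.Injective S := by
    intro m m' h
    by_cases hm : m ∈ range C.Φ
    · obtain ⟨y, rfl⟩ := hm
      by_cases hm' : m' ∈ range C.Φ
      · obtain ⟨y', rfl⟩ := hm'
        rw [hS, hS] at h
        obtain ⟨k, hk⟩ := transport_eq C h
        rw [← transport_T hT1] at hk
        rw [hTb.1 hk, transport_shift]
      · exfalso
        apply hm'
        rw [hS, hS' _ hm'] at h
        exact ⟨_, h⟩
    · by_cases hm' : m' ∈ range C.Φ
      · exfalso
        obtain ⟨y', rfl⟩ := hm'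
        apply hm
        rw [hS, hS' _ hm] at h
        exact ⟨_, h.symm⟩
      · rwa [hS' _ hm, hS' _ hm'] at h
  have hsurj : Function.Surjective S := by
    intro m
    by_cases hm : m ∈ range C.Φ
    · obtain ⟨z, rfl⟩ := hm
      obtain ⟨y, rfl⟩ := hTb.2 z
      exact ⟨C.Φ y, hS y⟩
    · exact ⟨m, hS' m hm⟩
  -- the compact set containing the support
  let K : Set M := C.Φ '' (closedBall (0 : X) r ×ˢ Icc (0 : ℝ) 1)
  have hK : IsClosed K := by
    have : ProperSpace X := FiniteDimensional.proper ℝ X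
    exact (((isCompact_closedBall (0 : X) r).prod isCompact_Icc).image C.Φ_cont).isClosed
  have hSK : ∀ m, m ∉ K → S m = m := by
    intro m hm
    by_cases hm' : m ∈ range C.Φ
    · obtain ⟨⟨x, θ⟩, rfl⟩ := hm'
      have hx : r ≤ ‖x‖ := by
        by_contra hx
        apply hm
        refine ⟨(x, Int.fract θ), ⟨?_, Int.fract_nonneg _, (Int.fract_lt_one _).le⟩, ?_⟩
        · rw [mem_closedBall_zero_iff]
          exact (not_le.1 hx).le
        · have := transport_shift C (x, Int.fract θ) ⌊θ⌋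
          rw [← this]
          simp
      rw [hS, hr (x, θ) hx]
    · exact hS' m hm'
  have hcont : Continuous S := by
    rw [continuous_iff_continuousAt]
    intro m
    by_cases hm : m ∈ K
    · obtain ⟨y, -, rfl⟩ := hm
      rw [ContinuousAt, hS]
      intro U hU
      have h1 : ∀ᶠ z in 𝓝 y, C.Φ (T z) ∈ U := (C.Φ_cont.comp hTc).continuousAt hU
      have h2 : C.Φ '' {z | C.Φ (T z) ∈ U} ∈ 𝓝 (C.Φ y) := C.Φ_open.image_mem_nhds h1
      rw [Filter.mem_map]
      filter_upwards [h2] with m' hm'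
      obtain ⟨z, hz, rfl⟩ := hm'
      rw [mem_preimage, hS]
      exact hz
    · have h1 : S =ᶠ[𝓝 m] id := by
        filter_upwards [hK.isOpen_compl.mem_nhds hm] with m' hm'
        exact hSK m' hm'
      exact continuousAt_id.congr h1.symm
  let E : M ≃ M := Equiv.ofBijective S ⟨hinj, hsurj⟩
  have hE : Continuous E := hcont
  exact ⟨hE.homeoOfEquivCompactToT2, hS, hS'⟩

end Pool.Agent.MinHomeo
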